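import Pool.Agent.KS6_98.Bdd.Final

/-!
# Partitions with bounded block sizes: torsion of every prime order

For a prime `p`, a power `p ^ j` of it and `k = p ^ j - 1`, `k ≥ 2`, the reduced integral homology in
dimension `2 k - 3` of the poset `Π_{n, ≤ k}` with `n = 2 k + 3` has an element of order exactly
`p`.

The definitions are:
* `PiLe n k`: the set partitions of `{0, ..., n-1}` (as equivalence relations on `Fin n`, ordered
  by refinement, finer ones being lower) different from the partition `⊥` into singletons, all of
  whose blocks have at most `k` elements;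
* `Simplex P k`: strictly increasing lists of length `k` in the poset `P`;
* `boundary P k`: the boundary map of the augmented simplicial chain complex with integer
  coefficients, from simplices with `k + 1` vertices to simplices with `k` vertices;
* `ElementOfOrder P i m`: there is a cycle in dimension `i` of which exactly the multiples with
  coefficients divisible by `m` are boundaries; by `elementOfOrder_iff` this says that cycles
  modulo boundaries in dimension `i` have an element of additive order `m`.
-/

set_option autoImplicit false

namespace Pool.Agent.Results.MP_8d5739_co.PrimeTorsion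

open Pool.Agent.KS6_98.Orb Pool.Agent.KS6_98.Bdd

/-- `Π_{n, ≤ k}`: the set partitions of `{0, ..., n-1}` other than the partition into singletons
all of whose blocks have at most `k` elements. -/
abbrev PiLe (n k : ℕ) : Type :=
  {s : Setoid (Fin n) // s ≠ ⊥ ∧ ∀ v : Fin n, {u : Fin n | s v u}.ncard ≤ k}

/-- Sanity check: two successive boundary maps compose to zero. -/
theorem boundary_comp (n k i : ℕ) (x : Simplex (PiLe n k) (i + 2) →₀ ℤ) :
    boundary (PiLe n k) i (boundary (PiLe n k) (i + 1) x) = 0 :=
  boundary_boundary_sub _ i x

/-- Sanity check: the meaning of `ElementOfOrder` in terms of the homology group. -/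
theorem order_check (n k i m : ℕ) :
    ElementOfOrder (PiLe n k) i m ↔ ∃ x : RedHomology (PiLe n k) i, addOrderOf x = m :=
  elementOfOrder_iff _ i m

/-- **Elements of every prime order in the homology of `Π_{n, ≤ k}`**: if `k + 1 ≥ 3` is a power of
the prime `p` then the reduced integral homology in dimension `2 k - 3` of `Π_{2 k + 3, ≤ k}` has an
element of order exactly `p`. -/
theorem result (p j k : ℕ) (hp : p.Prime) (hk : 2 ≤ k) (hkp : k + 1 = p ^ j) :
    ElementOfOrder (PiLe (2 * k + 3) k) (2 * k - 3) p := by
  have hx : Inj (fun i => Fin.ofNat (2 * k + 3) i) (2 * k + 2) := by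
    intro a ha b hb hab
    have h := congrArg Fin.val hab
    simp only [Fin.ofNat] at h
    rwa [Nat.mod_eq_of_lt (by omega), Nat.mod_eq_of_lt (by omega)] at h
  exact main (V := Fin (2 * k + 3)) hp hk hkp (by omega) (by simp) hx

/-- The negated form of the question: the homology is not free. -/
theorem not_free (p j k : ℕ) (hp : p.Prime) (hk : 2 ≤ k) (hkp : k + 1 = p ^ j) :
    ¬Module.Free ℤ (RedHomology (PiLe (2 * k + 3) k) (2 * k - 3)) := by
  intro hf
  obtain ⟨x, hx⟩ := (order_check _ _ _ _).1 (result p j k hp hk hkp)
  have h1 : (p : ℤ) • x = 0 := by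
    rw [← addOrderOf_dvd_iff_zsmul_eq_zero, hx]
  have h2 : (p : ℤ) ≠ 0 := by exact_mod_cast hp.ne_zero
  have h3 : x = 0 := (smul_eq_zero.1 h1).resolve_left h2
  rw [h3, addOrderOf_zero] at hx
  exact hp.one_lt.ne hx

end Pool.Agent.Results.MP_8d5739_co.PrimeTorsion
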